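import Pool.Agent.H0.Flow.Defs
import Pool.Agent.H0.Flow.Final

open MeasureTheory Pool.Agent.H0.Flow

namespace Pool.Agent.Results.MP_0b8746_pr.NoSqrtLower

/-- For every law `F` on `[0,∞)` with finite variance: `E[α*_{m,n}] = o(√(mn))` when `n → ∞` first
and then `m → ∞`; in particular there are no `c > 0`, `n₀` with `E[α*_{m,n}] ≥ c √(mn)` for all
`m ≥ 3`, `n ≥ n₀`. -/
theorem result (F : Measure ℝ) [IsProbabilityMeasure F] (hpos : ∀ᵐ x ∂F, 0 ≤ x)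
    (hF : MemLp id 2 F) :
    (∀ c : ℝ, 0 < c → ∃ m₀ : ℕ, ∀ m ≥ m₀, ∃ n₀ : ℕ, ∀ n ≥ n₀,
      Integrable (fun T : Fin n → Fin m → ℝ => optMakespan T)
        (Measure.pi fun _ => Measure.pi fun _ => F) ∧
      expError F m n < c * Real.sqrt (m * n)) ∧
    ¬ ∃ c : ℝ, 0 < c ∧ ∃ n₀ : ℕ, ∀ m n : ℕ, 3 ≤ m → n₀ ≤ n →
      c * Real.sqrt (m * n) ≤ expError F m n :=
  ⟨small F hpos hF, not_lower F hpos hF⟩

end Pool.Agent.Results.MP_0b8746_pr.NoSqrtLower
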